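import Pool.Agent.Y996.QH.Stm

/-!
Upper bound of the crossing probability of quadrilaterals of the half-plane.
-/

set_option autoImplicit false

namespace Pool.Agent.Y968.QH

open H974 Finset MeasureTheory
open Pool.Agent.Y996.QH
open Pool.Agent.Y996.RD (pos nv Size EN pc lat_close lat_far nv_abs near_coord)

/-- the edges of the half-plane in the box of radius `n` around `c` -/
noncomputable def hb (c : Vtx) (n : ℕ) : Finset Edg :=
  RE (c.1 - n) (c.1 + n) (max 0 (c.2 - n)) (c.2 + n)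

/-- a crossing of the half-annulus of radii `m`, `n` around `c` -/
def HC (c : Vtx) (m n : ℕ) (F : Finset Edg) : Prop :=
  ∃ u v : Vtx, 0 ≤ u.2 ∧ TH976.sd u c ≤ m ∧ n ≤ TH976.sd v c ∧ Reach (↑F : Set Edg) u v

theorem trl_hb (c : Vtx) (n : ℕ) :
    (trl ((n : ℤ) - c.1) 0).mp (hb c n) = TH976.qb ((n : ℤ), c.2) n := by
  unfold hb TH976.qb
  rw [trl_RE]
  congr 1
  · simp only; omega
  · simp only; omega
  · simp only; omega
  · simp only; omega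

/-- the probability of crossing a half-annulus, in terms of the quadrant -/
theorem pr_HC {c : Vtx} {m n : ℕ} (hmn : m ≤ n) {S : Finset Edg}
    (hS : hb c n ⊆ S) :
    Pr (fun _ => (1/2:ℝ)) S (fun F => HC c m n (F ∩ hb c n)) ≤
      Pr (fun _ => (1/2:ℝ)) (TH976.qb ((n : ℤ), c.2) n) (TH976.Cx ((n : ℤ), c.2) m n) := by
  have ok := okhalf
  have e1 : Pr (fun _ => (1/2:ℝ)) S (fun F => HC c m n (F ∩ hb c n)) =
      Pr (fun _ => (1/2:ℝ)) (hb c n) (fun F => HC c m n (F ∩ hb c n)) := by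
    apply Pr_local hS
    intro F _
    rw [Finset.inter_assoc, Finset.inter_self]
  rw [e1, ← trl_hb, LSym.pr]
  apply Pr_mono ok
  rintro F _ ⟨⟨u1, u2⟩, ⟨v1, v2⟩, h0, h1, h2, h3⟩
  refine ⟨(u1 + ((n : ℤ) - c.1), u2 + 0), (v1 + ((n : ℤ) - c.1), v2 + 0), ?_, ?_, ?_, ?_⟩
  · unfold TH976.InV
    unfold TH976.sd at h1
    simp only at h0 h1 ⊢
    omega
  · unfold TH976.sd at h1 ⊢
    simp only at h1 ⊢
    omega
  · unfold TH976.sd at h2 ⊢
    simp only at h2 ⊢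
    omega
  · have h4 := (trl ((n : ℤ) - c.1) 0).reach (h3.mono (G := (↑F : Set Edg)) (by
      intro e he
      exact Finset.mem_coe.mpr (Finset.mem_of_mem_inter_left (Finset.mem_coe.mp he))))
    rw [trl_ψ, trl_ψ, ← LSym.coe_mp] at h4
    exact h4

/-- an open path from near `K` to near `L` crosses a half-annulus around `K` -/
theorem up_event {ε : ℝ} (hε : 0 < ε) {K L : Set ℂ} {z : ℂ} {d ρ : ℝ}
    (hK : K ⊆ Metric.closedBall z ρ) (hερ : ε ≤ ρ) (hρd : 64 * ρ < d)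
    (hL : ∀ w ∈ L, d ≤ dist z w) {S : Finset Edg}
    (hS : hb (nv ε z) ⌊d / (4 * ε)⌋₊ ⊆ S) {G : Set Edg} (hG : ∀ e ∈ G, 0 ≤ e.2.1) {u v : Vtx}
    (hu : u ∈ nearH ε K) (hv : v ∈ nearH ε L) (h : Reach G u v) {F : Finset Edg}
    (hF : G ∩ ↑S ⊆ ↑F) :
    HC (nv ε z) (⌈ρ / ε⌉₊ + 2) ⌊d / (4 * ε)⌋₊ (F ∩ hb (nv ε z) ⌊d / (4 * ε)⌋₊) := by
  obtain ⟨m, hm⟩ : ∃ m, m = ⌈ρ / ε⌉₊ + 2 := ⟨_, rfl⟩
  obtain ⟨n, hn⟩ : ∃ n, n = ⌊d / (4 * ε)⌋₊ := ⟨_, rfl⟩
  rw [← hm, ← hn]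
  rw [← hn] at hS
  have hρ : 0 < ρ := hε.trans_le hερ
  have hm1 : ρ + 2 * ε ≤ ε * m := by
    have : ρ / ε + 2 ≤ m := by rw [hm]; push_cast; linarith [Nat.le_ceil (ρ / ε)]
    calc ρ + 2 * ε = ε * (ρ / ε + 2) := by field_simp
      _ ≤ _ := mul_le_mul_of_nonneg_left this hε.le
  have hm2 : ε * m ≤ ρ + 3 * ε := by
    have : (m:ℝ) ≤ ρ / ε + 3 := by
      rw [hm]; push_cast; linarith [(Nat.ceil_lt_add_one (show 0 ≤ ρ / ε by positivity)).le]
    calc ε * m ≤ ε * (ρ / ε + 3) := mul_le_mul_of_nonneg_left this hε.le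
      _ = _ := by field_simp
  have hn1 : ε * n ≤ d / 4 := by
    have : (n:ℝ) ≤ d / (4 * ε) := by
      rw [hn]; exact Nat.floor_le (div_nonneg (by linarith) (by linarith))
    calc ε * n ≤ ε * (d / (4 * ε)) := mul_le_mul_of_nonneg_left this hε.le
      _ = _ := by field_simp
  have hn2 : d / 4 - ε ≤ ε * n := by
    have : d / (4 * ε) - 1 ≤ n := by rw [hn]; linarith [Nat.lt_floor_add_one (d / (4 * ε))]
    calc d / 4 - ε = ε * (d / (4 * ε) - 1) := by field_simp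
      _ ≤ _ := mul_le_mul_of_nonneg_left this hε.le
  have hmn : m ≤ n := by
    have : ε * (m:ℝ) ≤ ε * n := by linarith
    exact_mod_cast le_of_mul_le_mul_left this hε
  obtain ⟨hu0, a, ha, hua⟩ := hu
  obtain ⟨hv0, b, hb', hvb⟩ := hv
  have hza : dist z a ≤ ρ := by rw [dist_comm]; exact hK ha
  have h1 := lat_close hε hza (nv_abs hε z) (near_coord hua) (n := m) (by linarith)
  have h2 := lat_far hε (by linarith) (hL b hb') (nv_abs hε z) (near_coord hvb) (n := n)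
    (by linarith)
  have h3 := abs_le.mp h1.1
  have h4 := abs_le.mp h1.2
  have hmn' : (m:ℤ) ≤ n := by exact_mod_cast hmn
  obtain ⟨y, k1, k2, k3⟩ := first_exit (a := (nv ε z).1 - n) (b := (nv ε z).1 + n)
    (c := (nv ε z).2 - n) (d := (nv ε z).2 + n) (by unfold inR; omega) h (by omega)
  refine ⟨u, y, hu0, by unfold TH976.sd; omega, ?_, k3.mono ?_⟩
  · unfold inR at k1
    unfold TH976.sd
    omega
  · rintro e ⟨he1, he2⟩
    have h5 : e ∈ hb (nv ε z) n := by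
      have h0 := hG e he1
      unfold hb
      obtain ⟨x, y, _ | _⟩ := e
      · rw [Finset.mem_coe, mem_RE_false] at he2
        rw [mem_RE_false]
        simp only at h0
        omega
      · rw [Finset.mem_coe, mem_RE_true] at he2
        rw [mem_RE_true]
        simp only at h0
        omega
    rw [Finset.coe_inter]
    exact ⟨hF ⟨he1, hS h5⟩, h5⟩

/-- the probability bound used in the upper estimate -/
theorem up_bound {C : ℝ} (hC : 0 < C)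
    (h : ∀ (x : Vtx) (m n : ℕ), TH976.InV x → 1 ≤ n → m ≤ n →
      (n : ℤ) ≤ x.1 → (x.2 ≤ 64 * ((m : ℤ) + 1) ∨ (n : ℤ) ≤ 1000 * ((m : ℤ) + 1)) →
      Pr (fun _ => (1/2 : ℝ)) (TH976.qb x n) (TH976.Cx x m n) ≤
        C * (((m : ℝ) + 1) / n) ^ ((1 : ℝ) / 3)) {ε d ρ : ℝ} (hε : 0 < ε)
    (hερ : ε ≤ ρ) (hρd : 64 * ρ < d) {z : ℂ} (hz : 0 ≤ z.im) (hzρ : z.im ≤ ρ)
    {S : Finset Edg} (hS : hb (nv ε z) ⌊d / (4 * ε)⌋₊ ⊆ S) :
    Pr (fun _ => (1/2:ℝ)) S (fun F => HC (nv ε z) (⌈ρ / ε⌉₊ + 2) ⌊d / (4 * ε)⌋₊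
      (F ∩ hb (nv ε z) ⌊d / (4 * ε)⌋₊)) ≤ C * (40:ℝ) ^ ((1:ℝ)/3) * (ρ / d) ^ ((1:ℝ)/3) := by
  obtain ⟨m, hm⟩ : ∃ m, m = ⌈ρ / ε⌉₊ + 2 := ⟨_, rfl⟩
  obtain ⟨n, hn⟩ : ∃ n, n = ⌊d / (4 * ε)⌋₊ := ⟨_, rfl⟩
  rw [← hm, ← hn]
  rw [← hn] at hS
  have hρ : 0 < ρ := hε.trans_le hερ
  have hd : 0 < d := by linarith
  have hm2 : ε * m ≤ 4 * ρ := by
    have : (m:ℝ) ≤ ρ / ε + 3 := by
      rw [hm]; push_cast; linarith [(Nat.ceil_lt_add_one (show 0 ≤ ρ / ε by positivity)).le]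
    calc ε * m ≤ ε * (ρ / ε + 3) := mul_le_mul_of_nonneg_left this hε.le
      _ = ρ + 3 * ε := by field_simp
      _ ≤ 4 * ρ := by linarith
  have hm3 : ρ / ε + 2 ≤ m := by rw [hm]; push_cast; linarith [Nat.le_ceil (ρ / ε)]
  have hn2 : d / 4 - ε ≤ ε * n := by
    have : d / (4 * ε) - 1 ≤ n := by rw [hn]; linarith [Nat.lt_floor_add_one (d / (4 * ε))]
    calc d / 4 - ε = ε * (d / (4 * ε) - 1) := by field_simp
      _ ≤ _ := mul_le_mul_of_nonneg_left this hε.le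
  have hmn : m ≤ n := by
    have : ε * ((m : ℕ):ℝ) ≤ ε * n := by linarith
    exact_mod_cast le_of_mul_le_mul_left this hε
  have hx0 : 0 ≤ (nv ε z).2 := by
    have h1 := (abs_le.mp (nv_abs hε z).2).1
    have h2 : -(ε / 2) ≤ ε * ((nv ε z).2 : ℝ) := by linarith
    have h3 : (-1 : ℝ) < ((nv ε z).2 : ℝ) := by
      by_contra hcon
      push Not at hcon
      have := mul_le_mul_of_nonneg_left hcon hε.le
      linarith
    have h4 : (-1 : ℤ) < (nv ε z).2 := by exact_mod_cast h3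
    omega
  have hxm : (nv ε z).2 ≤ (m : ℤ) := by
    have h1 := (abs_le.mp (nv_abs hε z).2).2
    have h2 : ε * ((nv ε z).2 : ℝ) ≤ ε * m := by
      calc ε * ((nv ε z).2 : ℝ) ≤ ρ + ε / 2 := by linarith
        _ ≤ ρ + 2 * ε := by linarith
        _ = ε * (ρ / ε + 2) := by field_simp
        _ ≤ ε * m := mul_le_mul_of_nonneg_left hm3 hε.le
    exact_mod_cast le_of_mul_le_mul_left h2 hε
  have h1 := h ((n : ℤ), (nv ε z).2) m n ⟨by simp, hx0⟩ (by omega) hmn (by simp)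
    (Or.inl (by simp only; omega))
  refine (pr_HC hmn hS).trans (h1.trans ?_)
  rw [mul_assoc]
  apply mul_le_mul_of_nonneg_left _ hC.le
  rw [← Real.mul_rpow (by norm_num) (by positivity)]
  apply Real.rpow_le_rpow (by positivity) _ (by norm_num)
  have hn0 : 0 < ε * (n:ℝ) := by linarith
  have hn0' : (0:ℝ) < n := (mul_pos_iff_of_pos_left hε).mp hn0
  have e : ((m:ℝ) + 1) / n = (ε * m + ε) / (ε * n) := by field_simp
  rw [e, div_le_iff₀ hn0]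
  calc ε * m + ε ≤ 5 * ρ := by linarith
    _ = 40 * (ρ / d) * (d / 8) := by field_simp; norm_num
    _ ≤ 40 * (ρ / d) * (ε * n) := by
        apply mul_le_mul_of_nonneg_left _ (by positivity)
        linarith

theorem hb_disjoint {x y : Vtx} {n : ℕ} (h : y.1 ≤ x.1 - (2 * n + 1 : ℕ) ∨
    x.1 + (2 * n + 1 : ℕ) ≤ y.1 ∨ y.2 ≤ x.2 - (2 * n + 1 : ℕ) ∨ x.2 + (2 * n + 1 : ℕ) ≤ y.2) :
    Disjoint (hb x n) (hb y n) := by
  rw [Finset.disjoint_left]
  rintro ⟨a, b, c⟩ h1 h2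
  unfold hb at h1 h2
  push_cast at h
  cases c
  · rw [mem_RE_false] at h1 h2; omega
  · rw [mem_RE_true] at h1 h2; omega

theorem HC_loc {m n : ℕ} {x : Vtx} {F : Finset Edg} :
    HC x m n (F ∩ hb x n) ↔ HC x m n ((F ∩ hb x n) ∩ hb x n) := by
  rw [Finset.inter_assoc, Finset.inter_self]

theorem pu : S_AR → S_PU := by
  rintro ⟨_, C, -, hC, hAR⟩
  have hAR' : ∀ (x : Vtx) (m n : ℕ), TH976.InV x → 1 ≤ n → m ≤ n →
      (n : ℤ) ≤ x.1 → (x.2 ≤ 64 * ((m : ℤ) + 1) ∨ (n : ℤ) ≤ 1000 * ((m : ℤ) + 1)) →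
      Pr (fun _ => (1/2 : ℝ)) (TH976.qb x n) (TH976.Cx x m n) ≤
        C * (((m : ℝ) + 1) / n) ^ ((1 : ℝ) / 3) :=
    fun x m n h1 h2 h3 h4 h5 => (hAR x m n h1 h2 h3 h4 h5).2
  clear hAR
  obtain ⟨B, hB1, hB2⟩ : ∃ B : ℝ, 1 ≤ B ∧ C * (40:ℝ) ^ ((1:ℝ)/3) ≤ B :=
    ⟨max 1 (C * (40:ℝ) ^ ((1:ℝ)/3)), le_max_left _ _, le_max_right _ _⟩
  obtain ⟨A, hAB, hA64⟩ : ∃ A : ℝ, B ≤ A ∧ (64:ℝ) ^ ((1:ℝ)/3) ≤ A :=
    ⟨max B ((64:ℝ) ^ ((1:ℝ)/3)), le_max_left _ _, le_max_right _ _⟩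
  have hA0 : 0 < A := lt_of_lt_of_le zero_lt_one (hB1.trans hAB)
  refine ⟨A * A, by positivity, ?_⟩
  intro ε K L z w ρ σ hε hGK hGL hd
  have hSK := hGK.size
  have hSL := hGL.size
  have hρ' : ε ≤ ρ ∨ ρ = dist z w := hGK.mesh
  have hσ' : ε ≤ σ ∨ σ = dist z w := hGL.mesh
  have hbK := hGK.base
  have hbL := hGL.base
  have hzK : 0 ≤ z.im := hGK.sub z hSK.mem
  have hwL : 0 ≤ w.im := hGL.sub w hSL.mem
  obtain ⟨d, hdd⟩ : ∃ d, d = dist z w := ⟨_, rfl⟩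
  rw [← hdd] at hSK hSL hd hρ' hσ' hbK hbL ⊢
  have hd0 : 0 < d := hSK.pos.trans_le hSK.le
  have hρ := hSK.pos
  have hσ := hSL.pos
  obtain ⟨n, hn⟩ : ∃ n, n = ⌊d / (4 * ε)⌋₊ := ⟨_, rfl⟩
  have hle1 : crossH ε K L ≤ 1 := measureReal_le_one
  have hge0 : 0 ≤ crossH ε K L := measureReal_nonneg
  rw [Real.mul_rpow (by positivity) (by positivity)]
  -- the factor of a large set
  have big : ∀ r : ℝ, 0 < r → d ≤ 64 * r → 1 ≤ A * (r / d) ^ ((1:ℝ)/3) := by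
    intro r hr h64
    have h1 : (1 / 64 : ℝ) ≤ r / d := by rw [div_le_div_iff₀ (by norm_num) hd0]; linarith
    have h2 : (1 / 64 : ℝ) ^ ((1:ℝ)/3) ≤ (r / d) ^ ((1:ℝ)/3) :=
      Real.rpow_le_rpow (by norm_num) h1 (by norm_num)
    have h3 : (64:ℝ) ^ ((1:ℝ)/3) * (1 / 64 : ℝ) ^ ((1:ℝ)/3) = 1 := by
      rw [← Real.mul_rpow (by norm_num) (by norm_num)]; norm_num
    calc (1:ℝ) = (64:ℝ) ^ ((1:ℝ)/3) * (1 / 64 : ℝ) ^ ((1:ℝ)/3) := h3.symm
      _ ≤ A * (r / d) ^ ((1:ℝ)/3) := mul_le_mul hA64 h2 (by positivity) (by positivity)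
  have height : ∀ (c : ℂ) (r : ℝ), 64 * r < d → (r = d ∨ ∃ a : ℝ, dist c (a : ℂ) ≤ r ∧
      ∀ s : ℝ, 0 ≤ s → s ≤ r / 4 → ∃ x ∈ (Set.univ : Set ℂ), dist x (a : ℂ) = s) →
      c.im ≤ r := by
    intro c r h1 h2
    rcases h2 with h2 | ⟨a, h2, -⟩
    · rw [h2] at h1; linarith
    · have h3 := Pool.Agent.Y996.RD.abs_im_le c (a : ℂ)
      rw [Complex.ofReal_im, sub_zero] at h3
      exact (le_abs_self _).trans (h3.trans h2)
  have small : ∀ (c : ℂ) (r : ℝ) (S : Finset Edg), 0 < r → ε ≤ r → 64 * r < d → 0 ≤ c.im →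
      c.im ≤ r → hb (nv ε c) n ⊆ S →
      Pr (fun _ => (1/2:ℝ)) S (fun F => HC (nv ε c) (⌈r / ε⌉₊ + 2) n (F ∩ hb (nv ε c) n)) ≤
        A * (r / d) ^ ((1:ℝ)/3) := by
    intro c r S hr h1 h2 h3 h4 h5
    rw [hn] at h5 ⊢
    refine (up_bound hC hAR' hε h1 h2 h3 h4 h5).trans ?_
    apply mul_le_mul_of_nonneg_right _ (by positivity)
    exact hB2.trans hAB
  have eps : ∀ r : ℝ, (ε ≤ r ∨ r = d) → 64 * r < d → ε ≤ r := by
    intro r h1 h2
    rcases h1 with h1 | h1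
    · exact h1
    · rw [h1] at h2; linarith
  have ball : ∀ (K' : Set ℂ) (z' : ℂ) (r : ℝ), Size K' z' d r → 64 * r < d →
      K' ⊆ Metric.closedBall z' r := by
    intro K' z' r h1 h2
    rcases h1.bd with h3 | h3
    · have := h1.pos; rw [h3] at h2; linarith
    · exact h3
  have hzi : 64 * ρ < d → z.im ≤ ρ := by
    intro h1
    apply height z ρ h1
    rcases hbK with h2 | ⟨a, h2, h3⟩
    · exact Or.inl h2
    · refine Or.inr ⟨a, h2, fun s hs1 hs2 => ?_⟩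
      obtain ⟨x, -, hx⟩ := h3 s hs1 hs2
      exact ⟨x, Set.mem_univ _, hx⟩
  have hwi : 64 * σ < d → w.im ≤ σ := by
    intro h1
    apply height w σ h1
    rcases hbL with h2 | ⟨a, h2, h3⟩
    · exact Or.inl h2
    · refine Or.inr ⟨a, h2, fun s hs1 hs2 => ?_⟩
      obtain ⟨x, -, hx⟩ := h3 s hs1 hs2
      exact ⟨x, Set.mem_univ _, hx⟩
  have hGe : ∀ ω : sqLattice.edgeSet → Bool, ∀ e ∈ opn ω ∩ {e : Edg | 0 ≤ e.2.1}, 0 ≤ e.2.1 :=
    fun ω e he => he.2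
  have hFF : ∀ (ω : sqLattice.edgeSet → Bool) (S : Finset Edg),
      (opn ω ∩ {e : Edg | 0 ≤ e.2.1}) ∩ ↑S ⊆ (↑(FF S ω) : Set Edg) := by
    intro ω S
    rw [FF_coe]
    rintro e ⟨⟨h1, -⟩, h2⟩
    exact ⟨h1, h2⟩
  have ehl : (fun _ : Edg => (1/2:ℝ)) = fun _ => (Pool.Agent.Y996.RD.hlf : ℝ) := rfl
  -- the event around one set
  have one : ∀ (K' L' : Set ℂ) (c : ℂ) (r : ℝ) (S : Finset Edg), K' ⊆ Metric.closedBall c r →
      ε ≤ r → 64 * r < d → (∀ y ∈ L', d ≤ dist c y) → hb (nv ε c) n ⊆ S →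
      ∀ (ω : sqLattice.edgeSet → Bool) (u v : Vtx), u ∈ nearH ε K' → v ∈ nearH ε L' →
      Reach (opn ω ∩ {e | 0 ≤ e.2.1}) u v →
      HC (nv ε c) (⌈r / ε⌉₊ + 2) n (FF S ω ∩ hb (nv ε c) n) := by
    intro K' L' c r S h1 h2 h3 h4 h5 ω u v hu hv hr
    rw [hn] at h5 ⊢
    exact up_event hε h1 h2 h3 h4 h5 (hGe ω) hu hv hr (hFF ω S)
  rcases le_or_gt d (64 * ρ) with h1 | h1
  · rcases le_or_gt d (64 * σ) with h2 | h2
    · -- both large
      have i1 := big ρ hρ h1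
      have i2 := big σ hσ h2
      calc crossH ε K L ≤ 1 * 1 := by linarith
        _ ≤ (A * (ρ / d) ^ ((1:ℝ)/3)) * (A * (σ / d) ^ ((1:ℝ)/3)) :=
            mul_le_mul i1 i2 zero_le_one (by positivity)
        _ = _ := by ring
    · -- `L` small
      have h3 := eps σ hσ' h2
      have i1 := big ρ hρ h1
      have i2 := small w σ (hb (nv ε w) n) hσ h3 h2 hwL (hwi h2) (Finset.Subset.refl _)
      have i3 : crossH ε K L ≤ Pr (fun _ => (1/2:ℝ)) (hb (nv ε w) n)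
          (fun F => HC (nv ε w) (⌈σ / ε⌉₊ + 2) n (F ∩ hb (nv ε w) n)) := by
        rw [ehl, ← law_event Pool.Agent.Y996.RD.hlf]
        unfold crossH
        refine measureReal_mono ?_
        rintro ω ⟨u, hu, v, hv, hr⟩
        exact one L K w σ _ (ball L w σ hSL h2) h3 h2
          (fun y hy => by rw [dist_comm]; exact hd y hy w hSL.mem) (Finset.Subset.refl _) ω v u
          hv hu hr.symm
      calc crossH ε K L ≤ 1 * crossH ε K L := by linarith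
        _ ≤ (A * (ρ / d) ^ ((1:ℝ)/3)) * (A * (σ / d) ^ ((1:ℝ)/3)) :=
            mul_le_mul i1 (i3.trans i2) hge0 (by positivity)
        _ = _ := by ring
  · have h3 := eps ρ hρ' h1
    rcases le_or_gt d (64 * σ) with h2 | h2
    · -- `K` small
      have i1 := small z ρ (hb (nv ε z) n) hρ h3 h1 hzK (hzi h1) (Finset.Subset.refl _)
      have i2 := big σ hσ h2
      have i3 : crossH ε K L ≤ Pr (fun _ => (1/2:ℝ)) (hb (nv ε z) n)
          (fun F => HC (nv ε z) (⌈ρ / ε⌉₊ + 2) n (F ∩ hb (nv ε z) n)) := by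
        rw [ehl, ← law_event Pool.Agent.Y996.RD.hlf]
        unfold crossH
        refine measureReal_mono ?_
        rintro ω ⟨u, hu, v, hv, hr⟩
        exact one K L z ρ _ (ball K z ρ hSK h1) h3 h1
          (fun y hy => hd z hSK.mem y hy) (Finset.Subset.refl _) ω u v hu hv hr
      calc crossH ε K L ≤ crossH ε K L * 1 := by linarith
        _ ≤ (A * (ρ / d) ^ ((1:ℝ)/3)) * (A * (σ / d) ^ ((1:ℝ)/3)) :=
            mul_le_mul (i3.trans i1) i2 zero_le_one (by positivity)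
        _ = _ := by ring
    · -- both small
      have h4 := eps σ hσ' h2
      obtain ⟨S, hS⟩ : ∃ S : Finset Edg, S = hb (nv ε z) n ∪ hb (nv ε w) n := ⟨_, rfl⟩
      have s1 : hb (nv ε z) n ⊆ S := by rw [hS]; exact Finset.subset_union_left
      have s2 : hb (nv ε w) n ⊆ S := by rw [hS]; exact Finset.subset_union_right
      have i1 := small z ρ S hρ h3 h1 hzK (hzi h1) s1
      have i2 := small w σ S hσ h4 h2 hwL (hwi h2) s2
      have hn1 : ε * n ≤ d / 4 := by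
        have : (n:ℝ) ≤ d / (4 * ε) := by rw [hn]; exact Nat.floor_le (by positivity)
        calc ε * n ≤ ε * (d / (4 * ε)) := mul_le_mul_of_nonneg_left this hε.le
          _ = _ := by field_simp
      have hdis : Disjoint (hb (nv ε z) n) (hb (nv ε w) n) := by
        apply hb_disjoint
        refine lat_far hε hd0.le (by rw [hdd] : d ≤ dist z w) (nv_abs hε z) (nv_abs hε w) ?_
        push_cast
        nlinarith
      have i3 : crossH ε K L ≤ Pr (fun _ => (1/2:ℝ)) S (fun F =>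
          HC (nv ε z) (⌈ρ / ε⌉₊ + 2) n (F ∩ hb (nv ε z) n) ∧
          HC (nv ε w) (⌈σ / ε⌉₊ + 2) n (F ∩ hb (nv ε w) n)) := by
        rw [ehl, ← law_event Pool.Agent.Y996.RD.hlf]
        unfold crossH
        refine measureReal_mono ?_
        rintro ω ⟨u, hu, v, hv, hr⟩
        constructor
        · exact one K L z ρ _ (ball K z ρ hSK h1) h3 h1
            (fun y hy => hd z hSK.mem y hy) s1 ω u v hu hv hr
        · exact one L K w σ _ (ball L w σ hSL h2) h4 h2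
            (fun y hy => by rw [dist_comm]; exact hd y hy w hSL.mem) s2 ω v u
            hv hu hr.symm
      have i4 := Pr_indep (p := fun _ => (1/2:ℝ)) (U := S) (S := hb (nv ε z) n)
        (T := hb (nv ε w) n) s1 s2 hdis
        (A := fun F => HC (nv ε z) (⌈ρ / ε⌉₊ + 2) n (F ∩ hb (nv ε z) n))
        (B := fun F => HC (nv ε w) (⌈σ / ε⌉₊ + 2) n (F ∩ hb (nv ε w) n))
        (fun F _ => HC_loc (m := ⌈ρ / ε⌉₊ + 2) (n := n) (x := nv ε z) (F := F))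
        (fun F _ => HC_loc (m := ⌈σ / ε⌉₊ + 2) (n := n) (x := nv ε w) (F := F))
      rw [i4] at i3
      have ok := okhalf
      have hb2 : 0 ≤ Pr (fun _ => (1/2:ℝ)) S (fun F =>
          HC (nv ε w) (⌈σ / ε⌉₊ + 2) n (F ∩ hb (nv ε w) n)) := Pr_nonneg ok _ _
      refine i3.trans ((mul_le_mul i1 i2 hb2 (by positivity)).trans (le_of_eq ?_))
      ring

end Pool.Agent.Y968.QH
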